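import Pool.Agent.H820.TC.Stm

set_option autoImplicit false

/-!
# The inductive step for the complex structures (helper30)
-/

namespace Pool.Agent.H30.TC.Step

open Module Pool.Agent.H820.TC

theorem alt_swap {X : Type} [AddCommGroup X] [Module ℝ X] {b : BF X} (hb : ∀ x, b x x = 0)
    (x y : X) : b x y = -b y x := by
  have h := hb (x + y)
  rw [map_add, map_add, LinearMap.add_apply, LinearMap.add_apply, hb x, hb y] at h
  linarith

/-- a complement of the span of `η` in the kernel of `e` -/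
theorem exists_compl {X : Type} [AddCommGroup X] [Module ℝ X] [FiniteDimensional ℝ X] (m : ℕ)
    (hX : finrank ℝ X = 2 * m + 2) (η : X) (hη : η ≠ 0) (e : X →ₗ[ℝ] ℝ) (he : e η = 0) (ξ : X)
    (hξ : e ξ = 1) : ∃ X' : Submodule ℝ X, (∀ x ∈ X', e x = 0) ∧ finrank ℝ X' = 2 * m ∧
      ∀ (s : ℝ), s • η ∈ X' → s = 0 := by
  obtain ⟨C, hC⟩ := Submodule.exists_isCompl (Submodule.span ℝ {η})
  have hN : Submodule.span ℝ {η} ≤ LinearMap.ker e := by
    rw [Submodule.span_singleton_le_iff_mem]
    exact he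
  have hsup : Submodule.span ℝ {η} ⊔ (C ⊓ LinearMap.ker e) = LinearMap.ker e := by
    rw [← sup_inf_assoc_of_le C hN, hC.sup_eq_top, top_inf_eq]
  have hinf : Submodule.span ℝ {η} ⊓ (C ⊓ LinearMap.ker e) = ⊥ := by
    rw [← inf_assoc, hC.inf_eq_bot, bot_inf_eq]
  have h1 := Submodule.finrank_sup_add_finrank_inf_eq (Submodule.span ℝ {η})
    (C ⊓ LinearMap.ker e)
  rw [hsup, hinf, finrank_bot, finrank_span_singleton hη] at h1
  have h2 := e.finrank_range_add_finrank_ker
  have h3 : LinearMap.range e = ⊤ := by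
    rw [LinearMap.range_eq_top]
    intro y
    exact ⟨y • ξ, by rw [map_smul, hξ, smul_eq_mul, mul_one]⟩
  rw [h3, finrank_top, hX, finrank_self] at h2
  refine ⟨C ⊓ LinearMap.ker e, fun x hx => hx.2, by omega, ?_⟩
  intro s hs
  have h4 : s • η ∈ Submodule.span ℝ {η} ⊓ (C ⊓ LinearMap.ker e) :=
    ⟨Submodule.smul_mem _ _ (Submodule.mem_span_singleton_self η), hs⟩
  rw [hinf, Submodule.mem_bot] at h4
  exact (smul_eq_zero.1 h4).resolve_right hη

/-- the coordinates -/
noncomputable def FF {X : Type} [AddCommGroup X] [Module ℝ X] (X' : Submodule ℝ X) (η ξ : X) :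
    (ℝ × X' × ℝ) →ₗ[ℝ] X where
  toFun z := z.1 • η + ((z.2.1 : X) + z.2.2 • ξ)
  map_add' z w := by
    simp only [Prod.fst_add, Prod.snd_add, add_smul, Submodule.coe_add]
    abel
  map_smul' c z := by
    simp only [Prod.smul_fst, Prod.smul_snd, smul_eq_mul, mul_smul, Submodule.coe_smul,
      RingHom.id_apply, smul_add]

theorem FF_bij {X : Type} [AddCommGroup X] [Module ℝ X] [FiniteDimensional ℝ X] (m : ℕ)
    (hX : finrank ℝ X = 2 * m + 2) (η : X) (e : X →ₗ[ℝ] ℝ) (he : e η = 0) (ξ : X)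
    (hξ : e ξ = 1) (X' : Submodule ℝ X) (h1 : ∀ x ∈ X', e x = 0) (h2 : finrank ℝ X' = 2 * m)
    (h3 : ∀ (s : ℝ), s • η ∈ X' → s = 0) : Function.Bijective (FF X' η ξ) := by
  have hinj : Function.Injective (FF X' η ξ) := by
    rw [← LinearMap.ker_eq_bot, LinearMap.ker_eq_bot']
    rintro ⟨s, x, r⟩ hz
    have hz' : s • η + ((x : X) + r • ξ) = 0 := hz
    have h4 := congrArg e hz'
    rw [map_add, map_add, map_smul, map_smul, he, hξ, h1 x x.2, map_zero] at h4
    simp only [smul_eq_mul, mul_zero, zero_add, mul_one] at h4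
    rw [h4, zero_smul, add_zero] at hz'
    have h5 : s • η = -(x : X) := eq_neg_of_add_eq_zero_left hz'
    have h6 : s = 0 := by
      apply h3
      rw [h5]
      exact X'.neg_mem x.2
    rw [h6, zero_smul, zero_add] at hz'
    have h7 : x = 0 := Subtype.ext hz'
    rw [h4, h6, h7]
    rfl
  refine ⟨hinj, ?_⟩
  rw [← LinearMap.injective_iff_surjective_of_finrank_eq_finrank]
  · exact hinj
  · rw [finrank_prod, finrank_prod, finrank_self, h2, hX]
    omega

/-- the complex structure in the coordinates -/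
noncomputable def jj {X' : Type} [AddCommGroup X'] [Module ℝ X'] (J' : X' →ₗ[ℝ] X') (t : ℝ) :
    (ℝ × X' × ℝ) →ₗ[ℝ] (ℝ × X' × ℝ) where
  toFun z := (-(1 / t) * z.2.2, J' z.2.1, t * z.1)
  map_add' z w := by
    simp only [Prod.fst_add, Prod.snd_add, map_add, mul_add, Prod.mk_add_mk]
  map_smul' c z := by
    simp only [Prod.smul_fst, Prod.smul_snd, smul_eq_mul, map_smul, RingHom.id_apply,
      Prod.smul_mk]
    congr 1
    · ring
    · congr 1
      ring

theorem jj_sq {X' : Type} [AddCommGroup X'] [Module ℝ X'] (J' : X' →ₗ[ℝ] X')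
    (hJ : ∀ x, J' (J' x) = -x) (t : ℝ) (ht : t ≠ 0) (z : ℝ × X' × ℝ) : jj J' t (jj J' t z) = -z := by
  obtain ⟨s, x, r⟩ := z
  show ((-(1 / t) * (t * s), J' (J' x), t * (-(1 / t) * r)) : ℝ × X' × ℝ) = (-s, -x, -r)
  rw [hJ]
  congr 1
  · field_simp
  · congr 1
    field_simp

/-- restriction of forms -/
noncomputable def res {X : Type} [AddCommGroup X] [Module ℝ X] (X' : Submodule ℝ X) :
    BF X →ₗ[ℝ] BF X' where
  toFun b := b.compl₁₂ X'.subtype X'.subtype
  map_add' b c := by
    ext x y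
    rfl
  map_smul' r b := by
    ext x y
    rfl

theorem res_apply {X : Type} [AddCommGroup X] [Module ℝ X] (X' : Submodule ℝ X) (b : BF X)
    (x y : X') : res X' b x y = b x y := rfl

/-- the conditions for `t = 0` -/
noncomputable def T0 {X : Type} [AddCommGroup X] [Module ℝ X] (D : Submodule ℝ (BF X))
    (X' : Submodule ℝ X) (η ξ : X) (J' : X' →ₗ[ℝ] X') :
    D →ₗ[ℝ] ((X' → X' → ℝ) × ℝ × (X' → ℝ)) where
  toFun b := (fun x y => b.1 (J' x) (J' y) + b.1 x y, b.1 η ξ, fun x => b.1 x η)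
  map_add' b c := by
    ext
    · simp only [Submodule.coe_add, LinearMap.add_apply, Prod.fst_add, Pi.add_apply]
      ring
    · simp only [Submodule.coe_add, LinearMap.add_apply, Prod.snd_add, Prod.fst_add]
    · simp only [Submodule.coe_add, LinearMap.add_apply, Prod.snd_add, Pi.add_apply]
  map_smul' r b := by
    ext
    · simp only [Submodule.coe_smul, LinearMap.smul_apply, Prod.smul_fst, Pi.smul_apply,
        smul_eq_mul, RingHom.id_apply]
      ring
    · simp only [Submodule.coe_smul, LinearMap.smul_apply, Prod.smul_snd, Prod.smul_fst,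
        RingHom.id_apply]
    · simp only [Submodule.coe_smul, LinearMap.smul_apply, Prod.smul_snd, Pi.smul_apply,
        RingHom.id_apply]

/-- the derivative of the conditions -/
noncomputable def SS {X : Type} [AddCommGroup X] [Module ℝ X] (D : Submodule ℝ (BF X))
    (X' : Submodule ℝ X) (ξ : X) (J' : X' →ₗ[ℝ] X') :
    D →ₗ[ℝ] ((X' → X' → ℝ) × ℝ × (X' → ℝ)) where
  toFun b := (0, 0, fun x => b.1 (J' x) ξ)
  map_add' b c := by
    ext
    · simp
    · simp
    · simp only [Submodule.coe_add, LinearMap.add_apply, Prod.snd_add, Pi.add_apply]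
  map_smul' r b := by
    ext
    · simp
    · simp
    · simp only [Submodule.coe_smul, LinearMap.smul_apply, Prod.smul_snd, Pi.smul_apply,
        RingHom.id_apply]

/-- perturbation of an injective linear map -/
theorem perturb0 {D Y : Type} [AddCommGroup D] [Module ℝ D] [FiniteDimensional ℝ D]
    [AddCommGroup Y] [Module ℝ Y] (T S : D →ₗ[ℝ] Y) (hT : ∀ b, T b = 0 → b = 0) :
    ∃ t : ℝ, t ≠ 0 ∧ ∀ b, T b + t • S b = 0 → b = 0 := by
  obtain ⟨L, hL⟩ := T.exists_leftInverse_of_injective (LinearMap.ker_eq_bot'.2 hT)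
  have hfin : {μ : ℝ | Module.End.HasEigenvalue (L ∘ₗ S) μ}.Finite :=
    Module.End.finite_hasEigenvalue (L ∘ₗ S)
  obtain ⟨μ, hμ⟩ := (hfin.insert 0).infinite_compl.nonempty
  rw [Set.mem_compl_iff, Set.mem_insert_iff, not_or] at hμ
  refine ⟨-(1 / μ), ?_, ?_⟩
  · intro h
    have h1 : 1 / μ = 0 := neg_eq_zero.1 h
    rw [one_div, inv_eq_zero] at h1
    exact hμ.1 h1
  · intro b hb
    by_contra hb0
    apply hμ.2
    have h2 := congrArg L hb
    rw [map_add, map_smul, map_zero] at h2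
    have h3 : L (T b) = b := by
      have := LinearMap.congr_fun hL b
      exact this
    rw [h3] at h2
    have h4 : (L ∘ₗ S) b = μ • b := by
      show L (S b) = μ • b
      have h5 : b = (1 / μ) • L (S b) := by
        rw [neg_smul] at h2
        exact (sub_eq_zero.1 (by rw [sub_eq_add_neg]; exact h2))
      have h6 := congrArg (fun x => μ • x) h5
      simp only [smul_smul] at h6
      rw [mul_one_div, div_self hμ.1, one_smul] at h6
      exact h6.symm
    exact Module.End.hasEigenvalue_of_hasEigenvector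
      ⟨Module.End.mem_eigenspace_iff.2 h4, hb0⟩

/-- perturbation of an injective linear map -/
theorem perturb {D Y : Type} [AddCommMonoid D] [Module ℝ D] [Module.Finite ℝ D]
    [AddCommGroup Y] [Module ℝ Y] (T S : D →ₗ[ℝ] Y) (hT : ∀ b, T b = 0 → b = 0) :
    ∃ t : ℝ, t ≠ 0 ∧ ∀ b, T b + t • S b = 0 → b = 0 := by
  letI : AddCommGroup D := Module.addCommMonoidToAddCommGroup ℝ
  exact perturb0 T S hT

theorem t_step : S_step := by
  intro m X _ _ _ hX D D₀ hD η hη hD₀ e he heη hDe hInd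
  obtain ⟨ξ, hξ⟩ : ∃ ξ, e ξ = 1 := by
    obtain ⟨z, hz⟩ := DFunLike.ne_iff.1 he
    refine ⟨(e z)⁻¹ • z, ?_⟩
    rw [map_smul, smul_eq_mul]
    exact inv_mul_cancel₀ hz
  obtain ⟨X', hX1, hX2, hX3⟩ := exists_compl m hX η hη e heη ξ hξ
  have hbij := FF_bij m hX η e heη ξ hξ X' hX1 hX2 hX3
  -- the complex structure of `X'`
  have hAlt' : IsAlt (D₀.map (res X')) := by
    rintro b' ⟨b, hb, rfl⟩ x
    exact hD b ((hD₀ b).1 hb).1 x
  obtain ⟨J', hJ1, hJ2⟩ := hInd X' hX2 (D₀.map (res X')) hAlt' (Submodule.finrank_map_le _ _)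
  -- injectivity for `t = 0`
  have hT0 : ∀ b : D, T0 D X' η ξ J' b = 0 → b = 0 := by
    intro b hb
    have halt := hD b.1 b.2
    have hb1 : (fun x y : X' => b.1 (J' x) (J' y) + b.1 x y) = 0 := congrArg Prod.fst hb
    have hb23 := congrArg Prod.snd hb
    have hb2 : b.1 η ξ = 0 := congrArg Prod.fst hb23
    have hb3 : (fun x : X' => b.1 x η) = 0 := congrArg Prod.snd hb23
    have hη0 : b.1 η = 0 := by
      apply LinearMap.ext
      intro y
      obtain ⟨z, hz⟩ := hbij.2 y
      have hz' : z.1 • η + ((z.2.1 : X) + z.2.2 • ξ) = y := hz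
      have h5 : b.1 η (z.2.1 : X) = 0 := by
        rw [alt_swap halt]
        have : b.1 (z.2.1 : X) η = 0 := congrFun hb3 z.2.1
        rw [this, neg_zero]
      rw [← hz', map_add, map_add, map_smul, map_smul, halt η, hb2, h5]
      simp
    have hbD : b.1 ∈ D₀ := (hD₀ b.1).2 ⟨b.2, hη0⟩
    have hres : res X' b.1 = 0 := by
      apply hJ2 _ (Submodule.mem_map_of_mem hbD)
      intro x y
      rw [res_apply, res_apply]
      have : b.1 (J' x) (J' y) + b.1 x y = 0 := congrFun (congrFun hb1 x) y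
      linarith
    apply Subtype.ext
    apply hDe b.1 hbD
    intro x y hx hy
    obtain ⟨z, hz⟩ := hbij.2 x
    obtain ⟨w, hw⟩ := hbij.2 y
    have hz' : z.1 • η + ((z.2.1 : X) + z.2.2 • ξ) = x := hz
    have hw' : w.1 • η + ((w.2.1 : X) + w.2.2 • ξ) = y := hw
    have ez : z.2.2 = 0 := by
      rw [← hz', map_add, map_add, map_smul, map_smul, heη, hξ, hX1 _ z.2.1.2] at hx
      simpa using hx
    have ew : w.2.2 = 0 := by
      rw [← hw', map_add, map_add, map_smul, map_smul, heη, hξ, hX1 _ w.2.1.2] at hy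
      simpa using hy
    rw [ez, zero_smul, add_zero] at hz'
    rw [ew, zero_smul, add_zero] at hw'
    have h6 : b.1 (z.2.1 : X) η = 0 := congrFun hb3 z.2.1
    have h7 : b.1 (z.2.1 : X) (w.2.1 : X) = 0 := by
      rw [← res_apply, hres]
      rfl
    have hbx : b.1 x = b.1 (z.2.1 : X) := by
      rw [← hz', map_add, map_smul, hη0, smul_zero, zero_add]
    rw [hbx, ← hw', map_add, map_smul, h6, h7]
    simp
  obtain ⟨t, ht, htinj⟩ := perturb (D := D) (Y := (X' → X' → ℝ) × ℝ × (X' → ℝ))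
    (T0 D X' η ξ J') (SS D X' ξ J') hT0
  obtain ⟨E, hE⟩ : ∃ E : (ℝ × X' × ℝ) ≃ₗ[ℝ] X, ∀ z, E z = FF X' η ξ z :=
    ⟨LinearEquiv.ofBijective (FF X' η ξ) hbij, fun z => rfl⟩
  refine ⟨E.toLinearMap ∘ₗ jj J' t ∘ₗ E.symm.toLinearMap, ?_, ?_⟩
  · intro x
    show E (jj J' t (E.symm (E (jj J' t (E.symm x))))) = -x
    rw [LinearEquiv.symm_apply_apply, jj_sq J' hJ1 t ht, map_neg, LinearEquiv.apply_symm_apply]
  · intro b hb hinv
    have halt := hD b hb
    have hJE : ∀ z, (E.toLinearMap ∘ₗ jj J' t ∘ₗ E.symm.toLinearMap) (E z) = E (jj J' t z) := by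
      intro z
      show E (jj J' t (E.symm (E z))) = E (jj J' t z)
      rw [LinearEquiv.symm_apply_apply]
    have hxE : ∀ x : X', E (0, x, 0) = (x : X) := by
      intro x
      rw [hE]
      show (0 : ℝ) • η + ((x : X) + (0 : ℝ) • ξ) = x
      rw [zero_smul, zero_smul, add_zero, zero_add]
    have hηE : E (1, 0, 0) = η := by
      rw [hE]
      show (1 : ℝ) • η + (((0 : X') : X) + (0 : ℝ) • ξ) = η
      rw [one_smul, zero_smul, add_zero, Submodule.coe_zero, add_zero]
    have hξE : E (0, 0, 1) = ξ := by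
      rw [hE]
      show (0 : ℝ) • η + (((0 : X') : X) + (1 : ℝ) • ξ) = ξ
      rw [one_smul, zero_smul, zero_add, Submodule.coe_zero, zero_add]
    have k1 : ∀ x y : X', b (J' x) (J' y) + b x y = 0 := by
      intro x y
      have h := hinv (E (0, x, 0)) (E (0, y, 0))
      rw [hJE, hJE] at h
      have e1 : ∀ x : X', jj J' t (0, x, 0) = (0, J' x, 0) := by
        intro x
        show ((-(1 / t) * 0, J' x, t * 0) : ℝ × X' × ℝ) = (0, J' x, 0)
        rw [mul_zero, mul_zero]
      rw [e1, e1, hxE, hxE, hxE, hxE] at h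
      linarith
    have hJη : E (jj J' t (1, 0, 0)) = t • ξ := by
      rw [hE]
      show (-(1 / t) * 0) • η + (((J' 0 : X') : X) + (t * 1) • ξ) = t • ξ
      rw [mul_zero, zero_smul, map_zero, Submodule.coe_zero, zero_add, zero_add, mul_one]
    have hJξ : E (jj J' t (0, 0, 1)) = (-(1 / t)) • η := by
      rw [hE]
      show (-(1 / t) * 1) • η + (((J' 0 : X') : X) + (t * 0) • ξ) = (-(1 / t)) • η
      rw [mul_zero, zero_smul, map_zero, Submodule.coe_zero, mul_one, add_zero, add_zero]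
    have k2 : b η ξ = 0 := by
      have h := hinv (E (1, 0, 0)) (E (0, 0, 1))
      have e2 : b (t • ξ) η = t * b ξ η := by
        rw [map_smul, LinearMap.smul_apply, smul_eq_mul]
      rw [hJE, hJE, hJη, hJξ, hηE, hξE, map_smul, e2, smul_eq_mul, alt_swap halt ξ η] at h
      have h8 : -(1 / t) * (t * -b η ξ) = b η ξ := by
        field_simp
      rw [h8] at h
      linarith
    have k3 : ∀ x : X', b x η + t * b (J' x) ξ = 0 := by
      intro x
      have h := hinv (E (0, x, 0)) (E (1, 0, 0))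
      have e1 : jj J' t (0, x, 0) = (0, J' x, 0) := by
        show ((-(1 / t) * 0, J' x, t * 0) : ℝ × X' × ℝ) = (0, J' x, 0)
        rw [mul_zero, mul_zero]
      rw [hJE, hJE, hJη, e1, hxE, hxE, hηE, map_smul, smul_eq_mul] at h
      linarith
    have h9 := htinj ⟨b, hb⟩ (by
      apply Prod.ext
      · funext x y
        show (b (J' x) (J' y) + b x y) + t • (0 : ℝ) = 0
        rw [k1, smul_zero, add_zero]
      · apply Prod.ext
        · show b η ξ + t • (0 : ℝ) = 0
          rw [k2, smul_zero, add_zero]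
        · funext x
          show b x η + t • b (J' x) ξ = 0
          rw [smul_eq_mul]
          exact k3 x)
    exact congrArg Subtype.val h9

end Pool.Agent.H30.TC.Step
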